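import Mathlib

/-!
# Real numbers with prescribed partial quotients and isolated jumps

For a function `g : ℕ → ℕ` and a sequence of bits `s` we build a continued fraction whose partial
quotients are `1` or `2`, except at a very sparse set of places (`jump`), where the next partial
quotient is `g q` or `g q + 1`, `q` being the current denominator.
-/

namespace Pool.Agent.Lib.Helper15.Quad

/-- Previous convergent, current convergent, threshold for the next jump. -/
structure St where
  p' : ℤ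
  q' : ℕ
  p : ℤ
  q : ℕ
  T : ℕ

/-- The next partial quotient. -/
def pquo (g : ℕ → ℕ) (b : Bool) (s : St) : ℕ :=
  (if s.T ≤ s.q then g s.q else 1) + (if b then 1 else 0)

/-- One step. -/
def step (g : ℕ → ℕ) (b : Bool) (s : St) : St where
  p' := s.p
  q' := s.q
  p := pquo g b s * s.p + s.p'
  q := pquo g b s * s.q + s.q'
  T := if s.T ≤ s.q then (pquo g b s * s.q + s.q') ^ (pquo g b s * s.q + s.q') else s.T

/-- The sequence of states. -/
def st (g : ℕ → ℕ) (s : ℕ → Bool) : ℕ → St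
  | 0 => ⟨1, 0, 0, 1, 1⟩
  | n + 1 => step g (s n) (st g s n)

variable (g : ℕ → ℕ) (s : ℕ → Bool)

/-- Denominators. -/
def q (n : ℕ) : ℕ := (st g s n).q
/-- Numerators. -/
def p (n : ℕ) : ℤ := (st g s n).p
/-- Partial quotients. -/
def a (n : ℕ) : ℕ := pquo g (s n) (st g s n)
/-- The jumps. -/
def jump (n : ℕ) : Prop := (st g s n).T ≤ (st g s n).q

lemma q_zero : q g s 0 = 1 := rfl
lemma p_zero : p g s 0 = 0 := rfl
lemma q_one : q g s 1 = a g s 0 := by simp [q, a, st, step]
lemma p_one : p g s 1 = 1 := by simp [p, st, step]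
lemma q_succ_succ (n : ℕ) : q g s (n + 2) = a g s (n + 1) * q g s (n + 1) + q g s n := rfl
lemma p_succ_succ (n : ℕ) : p g s (n + 2) = a g s (n + 1) * p g s (n + 1) + p g s n := rfl

variable {g}

lemma one_le_a (hg : ∀ m, 1 ≤ g m) (n : ℕ) : 1 ≤ a g s n := by
  unfold a pquo
  split_ifs with h1 h2 <;> first | omega | (have := hg (st g s n).q; omega)

lemma a_le_of_not_jump {n : ℕ} (h : ¬ jump g s n) : a g s n ≤ 2 := by
  unfold jump at h
  unfold a pquo
  rw [if_neg h]
  split_ifs <;> omega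

lemma a_of_jump {n : ℕ} (h : jump g s n) :
    g (q g s n) ≤ a g s n ∧ a g s n ≤ g (q g s n) + 1 := by
  unfold jump at h
  unfold a pquo
  rw [if_pos h]
  unfold q
  split_ifs <;> omega

lemma one_le_q (hg : ∀ m, 1 ≤ g m) : ∀ n, 1 ≤ q g s n
  | 0 => le_refl _
  | 1 => by rw [q_one]; exact one_le_a s hg 0
  | n + 2 => by
    rw [q_succ_succ]
    have := one_le_q hg n
    omega

lemma q_le_succ (hg : ∀ m, 1 ≤ g m) : ∀ n, q g s n ≤ q g s (n + 1)
  | 0 => by rw [q_one, q_zero]; exact one_le_a s hg 0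
  | n + 1 => by
    rw [q_succ_succ]
    have h1 := one_le_a s hg (n + 1)
    have h2 := one_le_q s hg (n + 1)
    nlinarith

lemma q_mono (hg : ∀ m, 1 ≤ g m) : Monotone (q g s) := monotone_nat_of_le_succ (q_le_succ s hg)

lemma q_add_le (hg : ∀ m, 1 ≤ g m) (n : ℕ) : q g s (n + 1) + q g s n ≤ q g s (n + 2) := by
  rw [q_succ_succ]
  have h1 := one_le_a s hg (n + 1)
  have h2 := one_le_q s hg (n + 1)
  nlinarith

lemma le_q (hg : ∀ m, 1 ≤ g m) : ∀ n, n ≤ q g s n
  | 0 => Nat.zero_le _
  | 1 => one_le_q s hg 1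
  | n + 2 => by
    have h1 := q_add_le s hg n
    have h2 := le_q hg (n + 1)
    have h3 := one_le_q s hg n
    omega

lemma a_mul_q_le (n : ℕ) : a g s n * q g s n ≤ q g s (n + 1) := by
  rcases n with _ | n
  · rw [q_one, q_zero]; omega
  · rw [q_succ_succ]; omega

lemma q_succ_le (hg : ∀ m, 1 ≤ g m) (n : ℕ) : q g s (n + 1) ≤ (a g s n + 1) * q g s n := by
  rcases n with _ | n
  · rw [q_one, q_zero]; omega
  · rw [q_succ_succ]
    have h := q_le_succ s hg n
    nlinarith

lemma q_succ_le_of_not_jump (hg : ∀ m, 1 ≤ g m) {n : ℕ} (h : ¬ jump g s n) :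
    q g s (n + 1) ≤ 3 * q g s n := by
  have h1 := q_succ_le s hg n
  have h2 := a_le_of_not_jump s h
  nlinarith

lemma det (n : ℕ) : p g s (n + 1) * q g s n - p g s n * q g s (n + 1) = (-1) ^ n := by
  induction n with
  | zero => simp [p_one, p_zero, q_zero]
  | succ n ih =>
    rw [q_succ_succ, p_succ_succ]
    push_cast
    rw [pow_succ, ← ih]
    ring

lemma coprime (n : ℕ) : IsCoprime (p g s n) (q g s n : ℤ) := by
  have h := det (g := g) s n
  rcases Nat.even_or_odd n with he | ho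
  · refine ⟨-(q g s (n + 1) : ℤ), p g s (n + 1), ?_⟩
    rw [he.neg_one_pow] at h
    linarith
  · refine ⟨(q g s (n + 1) : ℤ), -p g s (n + 1), ?_⟩
    rw [ho.neg_one_pow] at h
    linarith

/-! ### Thresholds -/

lemma T_succ_of_jump {n : ℕ} (h : jump g s n) :
    (st g s (n + 1)).T = q g s (n + 1) ^ q g s (n + 1) := by
  show (step g (s n) (st g s n)).T = _
  unfold step
  exact if_pos h

lemma T_succ_of_not_jump {n : ℕ} (h : ¬ jump g s n) :
    (st g s (n + 1)).T = (st g s n).T := by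
  show (step g (s n) (st g s n)).T = _
  unfold step
  exact if_neg h

lemma pow_le_T (hg : ∀ m, 1 ≤ g m) {j : ℕ} (hj : jump g s j) {k : ℕ} (hk : j + 1 ≤ k) :
    q g s (j + 1) ^ q g s (j + 1) ≤ (st g s k).T := by
  induction k, hk using Nat.le_induction with
  | base => rw [T_succ_of_jump s hj]
  | succ k hk ih =>
    by_cases h : jump g s k
    · rw [T_succ_of_jump s h]
      have h1 : q g s (j + 1) ≤ q g s (k + 1) := q_mono s hg (by omega)
      exact Nat.pow_le_pow_left h1 _ |>.trans (Nat.pow_le_pow_right (one_le_q s hg _) h1)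
    · rw [T_succ_of_not_jump s h]; exact ih

lemma pow_le_q (hg : ∀ m, 1 ≤ g m) {j k : ℕ} (hj : jump g s j) (hk : jump g s k) (hjk : j < k) :
    q g s (j + 1) ^ q g s (j + 1) ≤ q g s k :=
  (pow_le_T s hg hj hjk).trans hk

lemma exists_jump (hg : ∀ m, 1 ≤ g m) (N : ℕ) : ∃ k, N ≤ k ∧ jump g s k := by
  by_contra hcon
  push Not at hcon
  have hT : ∀ k, N ≤ k → (st g s k).T = (st g s N).T := by
    intro k hk
    induction k, hk using Nat.le_induction with
    | base => rfl
    | succ k hk ih => rw [T_succ_of_not_jump s (hcon k hk), ih]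
  have h1 := hcon (N + (st g s N).T) (by omega)
  apply h1
  show (st g s (N + (st g s N).T)).T ≤ q g s (N + (st g s N).T)
  rw [hT _ (by omega)]
  have := le_q s hg (N + (st g s N).T)
  omega

/-! ### The limit -/

/-- The convergents as real numbers. -/
noncomputable def x (n : ℕ) : ℝ := (p g s n : ℝ) / (q g s n : ℝ)

lemma q_pos (hg : ∀ m, 1 ≤ g m) (n : ℕ) : (0 : ℝ) < q g s n := by
  exact_mod_cast one_le_q s hg n

lemma x_succ_sub (hg : ∀ m, 1 ≤ g m) (n : ℕ) :
    x (g := g) s (n + 1) - x (g := g) s n = (-1) ^ n / ((q g s n : ℝ) * q g s (n + 1)) := by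
  have h1 := q_pos s hg n
  have h2 := q_pos s hg (n + 1)
  have h := det (g := g) s n
  have h' : (p g s (n + 1) : ℝ) * q g s n - p g s n * q g s (n + 1) = (-1) ^ n := by
    exact_mod_cast h
  unfold x
  rw [← h']
  field_simp

lemma x_add_two_sub (hg : ∀ m, 1 ≤ g m) (n : ℕ) :
    x (g := g) s (n + 2) - x (g := g) s n =
      (-1) ^ n * (1 / ((q g s n : ℝ) * q g s (n + 1)) - 1 / ((q g s (n + 1) : ℝ) * q g s (n + 2))) := by
  have h1 := x_succ_sub s hg n
  have h2 := x_succ_sub s hg (n + 1)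
  rw [show n + 2 = n + 1 + 1 from rfl]
  rw [show x (g := g) s (n + 1 + 1) - x (g := g) s n =
    (x (g := g) s (n + 1 + 1) - x (g := g) s (n + 1)) + (x (g := g) s (n + 1) - x (g := g) s n) by ring]
  rw [h1, h2, pow_succ]
  ring

lemma gap_pos (hg : ∀ m, 1 ≤ g m) (n : ℕ) :
    0 < 1 / ((q g s n : ℝ) * q g s (n + 1)) - 1 / ((q g s (n + 1) : ℝ) * q g s (n + 2)) := by
  have h1 := q_pos s hg n
  have h2 := q_pos s hg (n + 1)
  have h3 : (q g s n : ℝ) < q g s (n + 2) := by
    have := q_add_le s hg n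
    have h4 := one_le_q s hg (n + 1)
    have : q g s n < q g s (n + 2) := by omega
    exact_mod_cast this
  have h4 := q_pos s hg (n + 2)
  rw [sub_pos]
  apply one_div_lt_one_div_of_lt (by positivity)
  nlinarith

lemma x_even_lt (hg : ∀ m, 1 ≤ g m) (m : ℕ) :
    x (g := g) s (2 * m) < x (g := g) s (2 * (m + 1)) := by
  have h := x_add_two_sub s hg (2 * m)
  have h2 := gap_pos s hg (2 * m)
  rw [(even_two_mul m).neg_one_pow, one_mul] at h
  rw [show 2 * (m + 1) = 2 * m + 2 by ring]
  linarith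

lemma x_odd_lt (hg : ∀ m, 1 ≤ g m) (m : ℕ) :
    x (g := g) s (2 * (m + 1) + 1) < x (g := g) s (2 * m + 1) := by
  have h := x_add_two_sub s hg (2 * m + 1)
  have h2 := gap_pos s hg (2 * m + 1)
  rw [(odd_two_mul_add_one m).neg_one_pow] at h
  rw [show 2 * (m + 1) + 1 = 2 * m + 1 + 2 by ring]
  linarith

lemma x_even_lt_odd (hg : ∀ m, 1 ≤ g m) (m : ℕ) :
    x (g := g) s (2 * m) < x (g := g) s (2 * m + 1) := by
  have h := x_succ_sub s hg (2 * m)
  rw [(even_two_mul m).neg_one_pow] at h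
  have h1 := q_pos s hg (2 * m)
  have h2 := q_pos s hg (2 * m + 1)
  have : 0 < 1 / ((q g s (2 * m) : ℝ) * q g s (2 * m + 1)) := by positivity
  linarith

lemma x_even_mono (hg : ∀ m, 1 ≤ g m) : StrictMono fun m => x (g := g) s (2 * m) :=
  strictMono_nat_of_lt_succ (x_even_lt s hg)

lemma x_odd_anti (hg : ∀ m, 1 ≤ g m) : StrictAnti fun m => x (g := g) s (2 * m + 1) :=
  strictAnti_nat_of_succ_lt (x_odd_lt s hg)

lemma x_even_lt_odd' (hg : ∀ m, 1 ≤ g m) (m n : ℕ) :
    x (g := g) s (2 * m) < x (g := g) s (2 * n + 1) := by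
  have h1 := (x_even_mono s hg).monotone (le_max_left m n)
  have h2 := (x_odd_anti s hg).antitone (le_max_right m n)
  exact lt_of_le_of_lt h1 (lt_of_lt_of_le (x_even_lt_odd s hg (max m n)) h2)

variable (g)
/-- The number. -/
noncomputable def zeta : ℝ := ⨆ m, x (g := g) s (2 * m)
variable {g}

lemma bdd (hg : ∀ m, 1 ≤ g m) : BddAbove (Set.range fun m => x (g := g) s (2 * m)) := by
  refine ⟨x (g := g) s 1, ?_⟩
  rintro _ ⟨m, rfl⟩
  exact (x_even_lt_odd' s hg m 0).le

lemma even_lt_zeta (hg : ∀ m, 1 ≤ g m) (m : ℕ) : x (g := g) s (2 * m) < zeta g s :=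
  lt_of_lt_of_le (x_even_lt s hg m) (le_ciSup (bdd s hg) (m + 1))

lemma zeta_lt_odd (hg : ∀ m, 1 ≤ g m) (m : ℕ) : zeta g s < x (g := g) s (2 * m + 1) :=
  lt_of_le_of_lt (ciSup_le fun n => (x_even_lt_odd' s hg n (m + 1)).le) (x_odd_lt s hg m)

lemma zeta_pos (hg : ∀ m, 1 ≤ g m) : 0 < zeta g s := by
  have := even_lt_zeta s hg 0
  simpa [x, p_zero] using this

lemma zeta_lt_one (hg : ∀ m, 1 ≤ g m) : zeta g s < 1 := by
  have h := zeta_lt_odd s hg 0
  have h1 : x (g := g) s (2 * 0 + 1) ≤ 1 := by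
    unfold x
    simp only [mul_zero, zero_add, p_one, Int.cast_one]
    rw [div_le_one (q_pos s hg 1)]
    exact_mod_cast one_le_q s hg 1
  linarith

variable (g)
/-- `δ_n = (-1)^n (q_n ζ - p_n)`. -/
noncomputable def del (n : ℕ) : ℝ := (-1) ^ n * (q g s n * zeta g s - p g s n)
variable {g}

lemma del_pos (hg : ∀ m, 1 ≤ g m) (n : ℕ) : 0 < del g s n := by
  unfold del
  have hq := q_pos s hg n
  rcases Nat.even_or_odd' n with ⟨m, rfl | rfl⟩
  · rw [(even_two_mul m).neg_one_pow, one_mul]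
    have h := even_lt_zeta s hg m
    unfold x at h
    rw [div_lt_iff₀ hq] at h
    linarith
  · rw [(odd_two_mul_add_one m).neg_one_pow]
    have h := zeta_lt_odd s hg m
    unfold x at h
    rw [lt_div_iff₀ hq] at h
    linarith

lemma del_abs (hg : ∀ m, 1 ≤ g m) (n : ℕ) : |q g s n * zeta g s - p g s n| = del g s n := by
  rw [← abs_of_pos (del_pos s hg n)]
  unfold del
  rw [abs_mul, abs_pow, abs_neg, abs_one, one_pow, one_mul]

lemma del_det (n : ℕ) : q g s (n + 1) * del g s n + q g s n * del g s (n + 1) = 1 := by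
  have h := det (g := g) s n
  have h' : (p g s (n + 1) : ℝ) * q g s n - p g s n * q g s (n + 1) = (-1) ^ n := by
    exact_mod_cast h
  have h2 : ((-1 : ℝ) ^ n) * (-1) ^ n = 1 := by
    rw [← mul_pow]; norm_num
  unfold del
  rw [pow_succ]
  linear_combination ((-1 : ℝ) ^ n) * h' + h2

lemma del_lt (hg : ∀ m, 1 ≤ g m) (n : ℕ) : del g s n < 1 / q g s (n + 1) := by
  have h := del_det (g := g) s n
  have h1 := del_pos s hg (n + 1)
  have h2 := q_pos s hg n
  have h3 := q_pos s hg (n + 1)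
  rw [lt_div_iff₀ h3]
  nlinarith

lemma lt_del (hg : ∀ m, 1 ≤ g m) (n : ℕ) :
    1 / ((q g s (n + 1) : ℝ) + q g s n) < del g s n := by
  have h := del_det (g := g) s n
  have h1 := del_lt s hg (n + 1)
  have h2 := q_pos s hg n
  have h3 := q_pos s hg (n + 1)
  have h4 := q_pos s hg (n + 2)
  have h5 : (q g s (n + 1) : ℝ) + q g s n ≤ q g s (n + 2) := by
    exact_mod_cast q_add_le s hg n
  have h6 : 1 / (q g s (n + 2) : ℝ) ≤ 1 / ((q g s (n + 1) : ℝ) + q g s n) :=
    one_div_le_one_div_of_le (by positivity) h5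
  have h7 : q g s n * del g s (n + 1) < q g s n * (1 / ((q g s (n + 1) : ℝ) + q g s n)) :=
    mul_lt_mul_of_pos_left (lt_of_lt_of_le h1 h6) h2
  have h8 : (q g s n : ℝ) * (1 / ((q g s (n + 1) : ℝ) + q g s n)) =
      1 - q g s (n + 1) * (1 / ((q g s (n + 1) : ℝ) + q g s n)) := by
    field_simp
    ring
  have h9 : q g s (n + 1) * (1 / ((q g s (n + 1) : ℝ) + q g s n)) < q g s (n + 1) * del g s n := by
    linarith
  exact lt_of_mul_lt_mul_left h9 h3.le

lemma half_lt_del (hg : ∀ m, 1 ≤ g m) (n : ℕ) : 1 / (2 * (q g s (n + 1) : ℝ)) < del g s n := by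
  refine lt_of_le_of_lt ?_ (lt_del s hg n)
  have h2 := q_pos s hg n
  have h3 := q_pos s hg (n + 1)
  have h4 : (q g s n : ℝ) ≤ q g s (n + 1) := by exact_mod_cast q_le_succ s hg n
  apply one_div_le_one_div_of_le (by positivity)
  linarith

/-! ### Injectivity in the bits -/

lemma st_congr {s s' : ℕ → Bool} {n : ℕ} (h : ∀ m < n, s m = s' m) : st g s n = st g s' n := by
  induction n with
  | zero => rfl
  | succ n ih =>
    show step g (s n) (st g s n) = step g (s' n) (st g s' n)
    rw [ih fun m hm => h m (by omega), h n (by omega)]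

lemma zeta_ne_aux (hg : ∀ m, 1 ≤ g m) {s s' : ℕ → Bool} {n : ℕ} (h : ∀ m < n, s m = s' m)
    (h1 : s n = false) (h2 : s' n = true) : zeta g s ≠ zeta g s' := by
  intro hz
  have hst := st_congr (g := g) h
  have hq : q g s n = q g s' n := by unfold q; rw [hst]
  have hp : p g s n = p g s' n := by unfold p; rw [hst]
  have hdel : del g s n = del g s' n := by unfold del; rw [hq, hp, hz]
  have hq1 : q g s' (n + 1) = q g s (n + 1) + q g s n := by
    unfold q
    show (step g (s' n) (st g s' n)).q = (step g (s n) (st g s n)).q + (st g s n).q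
    rw [← hst, h1, h2]
    simp only [step, pquo, if_true]
    simp only [Bool.false_eq_true, if_false]
    ring
  have h3 := lt_del s hg n
  have h4 := del_lt s' hg n
  rw [hq1] at h4
  push_cast at h4
  linarith

lemma zeta_injective (hg : ∀ m, 1 ≤ g m) : Function.Injective (zeta g) := by
  intro s s' hz
  by_contra hne
  obtain ⟨n, hn, hmin⟩ : ∃ n, s n ≠ s' n ∧ ∀ m < n, s m = s' m := by
    have hex : ∃ n, s n ≠ s' n := Function.ne_iff.mp hne
    classical
    refine ⟨Nat.find hex, Nat.find_spec hex, fun m hm => ?_⟩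
    have := Nat.find_min hex hm
    push Not at this
    exact this
  cases h1 : s n with
  | false =>
    have h2 : s' n = true := by
      cases h : s' n with
      | false => exact absurd (h1.trans h.symm) hn
      | true => rfl
    exact zeta_ne_aux hg hmin h1 h2 hz
  | true =>
    have h2 : s' n = false := by
      cases h : s' n with
      | true => exact absurd (h1.trans h.symm) hn
      | false => rfl
    exact zeta_ne_aux hg (fun m hm => (hmin m hm).symm) h2 h1 hz.symm

lemma exists_transcendental (hg : ∀ m, 1 ≤ g m) : ∃ s, Transcendental ℤ (zeta g s) := by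
  by_contra hcon
  push Not at hcon
  have h1 : Set.range (zeta g) ⊆ {x : ℝ | IsAlgebraic ℤ x} := by
    rintro _ ⟨s, rfl⟩
    have := hcon s
    unfold Transcendental at this
    push Not at this
    exact this
  have h2 : (Set.range (zeta g)).Countable := (Algebraic.countable ℤ ℝ).mono h1
  have h3 : Countable (ℕ → Bool) := by
    have h4 : Countable (Set.range (zeta g)) := Set.countable_coe_iff.mpr h2
    exact (Equiv.ofInjective _ (zeta_injective hg)).countable_iff.mpr h4
  obtain ⟨f, hf⟩ := exists_surjective_nat (ℕ → Bool)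
  obtain ⟨m, hm⟩ := hf fun n => !(f n n)
  have h5 := congrFun hm m
  cases h6 : f m m <;> simp [h6] at h5

end Pool.Agent.Lib.Helper15.Quad
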