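import Pool.Agent.Lib.Helper15.Quad.CF

/-!
# Values of linear forms and a pigeonhole lemma
-/

namespace Pool.Agent.Lib.Helper15.Quad

variable {g : ℕ → ℕ} (s : ℕ → Bool)

lemma nonprop (hg : ∀ m, 1 ≤ g m) (n : ℕ) (a b : ℤ) (h : a * p g s n + b * q g s n ≠ 0) :
    1 ≤ q g s n * |a * zeta g s + b| + |(a : ℝ)| * del g s n := by
  have h1 : (1 : ℝ) ≤ |((a * p g s n + b * q g s n : ℤ) : ℝ)| := by
    have : (1 : ℤ) ≤ |a * p g s n + b * q g s n| := Int.one_le_abs h
    exact_mod_cast this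
  have h2 : ((a * p g s n + b * q g s n : ℤ) : ℝ) =
      q g s n * (a * zeta g s + b) - a * (q g s n * zeta g s - p g s n) := by
    push_cast; ring
  rw [h2] at h1
  have h3 := abs_sub (q g s n * (a * zeta g s + b)) (a * (q g s n * zeta g s - p g s n))
  rw [abs_mul, abs_mul (a : ℝ), del_abs s hg, abs_of_pos (q_pos s hg n)] at h3
  linarith

lemma nonprop_half (hg : ∀ m, 1 ≤ g m) (n : ℕ) (a b : ℤ) (h : a * p g s n + b * q g s n ≠ 0)
    (ha : 2 * |(a : ℝ)| ≤ q g s (n + 1)) : 1 / (2 * (q g s n : ℝ)) ≤ |a * zeta g s + b| := by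
  have h1 := nonprop s hg n a b h
  have h2 := del_lt s hg n
  have hq := q_pos s hg n
  have hq' := q_pos s hg (n + 1)
  rw [lt_div_iff₀ hq'] at h2
  have hd := del_pos s hg n
  have h3 : |(a : ℝ)| * del g s n ≤ 1 / 2 := by nlinarith
  rw [div_le_iff₀ (by positivity)]
  nlinarith

lemma dvd_of_prop (n : ℕ) (a b : ℤ) (h : a * p g s n + b * q g s n = 0) :
    (q g s n : ℤ) ∣ a := by
  have hc := coprime (g := g) s n
  have h1 : (q g s n : ℤ) ∣ a * p g s n := ⟨-b, by linarith⟩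
  exact hc.symm.dvd_of_dvd_mul_right h1

lemma le_abs_of_prop (n : ℕ) (a b : ℤ) (h : a * p g s n + b * q g s n = 0) (ha : a ≠ 0) :
    (q g s n : ℝ) ≤ |(a : ℝ)| := by
  have h1 := dvd_of_prop s n a b h
  have h2 : (q g s n : ℤ) ≤ |a| := Int.le_of_dvd (abs_pos.mpr ha) ((dvd_abs _ _).mpr h1)
  exact_mod_cast h2

lemma ne_zero_of_prop (hg : ∀ m, 1 ≤ g m) (n : ℕ) (a b : ℤ) (h : a * p g s n + b * q g s n = 0)
    (hab : ¬ (a = 0 ∧ b = 0)) : a ≠ 0 := by
  intro ha
  apply hab
  refine ⟨ha, ?_⟩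
  rw [ha, zero_mul, zero_add] at h
  have h1 := one_le_q s hg n
  rcases mul_eq_zero.mp h with h2 | h2
  · exact h2
  · have : q g s n = 0 := by exact_mod_cast h2
    omega

lemma del_le_of_prop (hg : ∀ m, 1 ≤ g m) (n : ℕ) (a b : ℤ) (h : a * p g s n + b * q g s n = 0)
    (ha : a ≠ 0) : del g s n ≤ |a * zeta g s + b| := by
  have hq := q_pos s hg n
  have h1 := le_abs_of_prop s n a b h ha
  have h' : (a : ℝ) * p g s n + b * q g s n = 0 := by exact_mod_cast h
  have h2 : (q g s n : ℝ) * |a * zeta g s + b| = |(a : ℝ)| * del g s n := by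
    rw [← del_abs s hg, ← abs_mul]
    rw [show (q g s n : ℝ) * |a * zeta g s + b| = |(q g s n : ℝ) * (a * zeta g s + b)| by
      rw [abs_mul, abs_of_pos hq]]
    congr 1
    linear_combination h'
  have hd := del_pos s hg n
  by_contra hcon
  push Not at hcon
  have h3 : (q g s n : ℝ) * |a * zeta g s + b| < q g s n * del g s n :=
    mul_lt_mul_of_pos_left hcon hq
  nlinarith

/-- Every linear form is either not small or a multiple of a jump. -/
lemma form_dichotomy (hg : ∀ m, 1 ≤ g m) (a b : ℤ) (ha : a ≠ 0) :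
    1 / (12 * |(a : ℝ)|) ≤ |a * zeta g s + b| ∨
      ∃ n, jump g s n ∧ a * p g s n + b * q g s n = 0 := by
  classical
  have haN : 1 ≤ a.natAbs := Int.natAbs_pos.mpr ha
  have habs : (|(a : ℝ)|) = (a.natAbs : ℝ) := by
    rw [Nat.cast_natAbs, Int.cast_abs]
  set n := Nat.findGreatest (fun n => q g s n ≤ 2 * a.natAbs) (2 * a.natAbs) with hn
  have h0 : q g s 0 ≤ 2 * a.natAbs := by rw [q_zero]; omega
  have h1 : q g s n ≤ 2 * a.natAbs :=
    Nat.findGreatest_spec (P := fun n => q g s n ≤ 2 * a.natAbs) (Nat.zero_le _) h0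
  have h2 : 2 * a.natAbs < q g s (n + 1) := by
    by_contra hcon
    push Not at hcon
    have h3 := Nat.findGreatest_is_greatest (P := fun n => q g s n ≤ 2 * a.natAbs)
      (n := 2 * a.natAbs) (k := n + 1) (by omega)
    by_cases h4 : n + 1 ≤ 2 * a.natAbs
    · exact h3 h4 hcon
    · have := le_q s hg (n + 1)
      omega
  have h1' : (q g s n : ℝ) ≤ 2 * |(a : ℝ)| := by rw [habs]; exact_mod_cast h1
  have h2' : 2 * |(a : ℝ)| < q g s (n + 1) := by rw [habs]; exact_mod_cast h2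
  have hapos : 0 < |(a : ℝ)| := by rw [habs]; exact_mod_cast haN
  have hnp : a * p g s (n + 1) + b * q g s (n + 1) ≠ 0 := by
    intro hcon
    have := le_abs_of_prop s (n + 1) a b hcon ha
    linarith
  have hqm : (q g s (n + 1) : ℝ) ≤ q g s (n + 2) := by exact_mod_cast q_le_succ s hg (n + 1)
  have h3 := nonprop_half s hg (n + 1) a b hnp (by linarith)
  by_cases hj : jump g s n
  · by_cases hpr : a * p g s n + b * q g s n = 0
    · exact Or.inr ⟨n, hj, hpr⟩
    · left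
      have h4 := nonprop_half s hg n a b hpr h2'.le
      refine le_trans ?_ h4
      apply one_div_le_one_div_of_le
      · have := q_pos s hg n
        positivity
      · linarith
  · left
    refine le_trans ?_ h3
    have h4 : (q g s (n + 1) : ℝ) ≤ 3 * q g s n := by
      exact_mod_cast q_succ_le_of_not_jump s hg hj
    apply one_div_le_one_div_of_le
    · have := q_pos s hg (n + 1)
      positivity
    · linarith

/-- Lower bound for all linear forms not proportional to the last jump. -/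
lemma form_lower (hg : ∀ m, 1 ≤ g m) {k : ℕ} {X E : ℝ}
    (hX : ∀ j, jump g s j → (q g s j : ℝ) ≤ X → j ≤ k) (hE1 : 1 ≤ E)
    (hE : ∀ j, jump g s j → j < k → (q g s (j + 1) : ℝ) ≤ E)
    (a b : ℤ) (hab : ¬ (a = 0 ∧ b = 0)) (haX : |(a : ℝ)| ≤ X) :
    a * p g s k + b * q g s k = 0 ∨ 1 / (12 * max |(a : ℝ)| 1 * E) ≤ |a * zeta g s + b| := by
  by_cases ha : a = 0
  · right
    have hb : b ≠ 0 := fun hb => hab ⟨ha, hb⟩
    have h1 : (1 : ℝ) ≤ |(b : ℝ)| := by exact_mod_cast Int.one_le_abs hb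
    rw [ha]
    simp only [Int.cast_zero, abs_zero, zero_mul, zero_add]
    rw [max_eq_right (by norm_num : (0 : ℝ) ≤ 1)]
    refine le_trans ?_ h1
    rw [div_le_one (by positivity)]
    linarith
  · have ha1 : (1 : ℝ) ≤ |(a : ℝ)| := by exact_mod_cast Int.one_le_abs ha
    rw [max_eq_left ha1]
    rcases form_dichotomy s hg a b ha with h | ⟨n, hj, hpr⟩
    · right
      refine le_trans ?_ h
      apply one_div_le_one_div_of_le (by positivity)
      nlinarith
    · have h1 := le_abs_of_prop s n a b hpr ha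
      have h2 := hX n hj (h1.trans haX)
      rcases h2.lt_or_eq with h3 | h3
      · right
        have h4 := del_le_of_prop s hg n a b hpr ha
        have h5 := half_lt_del s hg n
        have h6 := hE n hj h3
        refine le_trans ?_ (h5.le.trans h4)
        have h7 := q_pos s hg (n + 1)
        apply one_div_le_one_div_of_le (by positivity)
        nlinarith
      · left
        rw [← h3]; exact hpr

/-- The triple is the coefficient triple of a product of two linear polynomials. -/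
def Red (u v w : ℤ) : Prop := ∃ a b c d : ℤ, u = a * c ∧ v = a * d + b * c ∧ w = b * d

lemma red_bound {a b c d : ℤ} {H : ℝ} (hH : 1 ≤ H) (h1 : |((a * c : ℤ) : ℝ)| ≤ H)
    (h2 : |((a * d + b * c : ℤ) : ℝ)| ≤ H) (hab : ¬ (a = 0 ∧ b = 0)) (hcd : ¬ (c = 0 ∧ d = 0)) :
    max |(a : ℝ)| 1 * max |(c : ℝ)| 1 ≤ H := by
  by_cases ha : a = 0
  · have hb : b ≠ 0 := fun hb => hab ⟨ha, hb⟩
    rw [ha, Int.cast_zero, abs_zero, max_eq_right (by norm_num : (0 : ℝ) ≤ 1), one_mul]
    rw [ha, zero_mul, zero_add] at h2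
    have hb1 : (1 : ℝ) ≤ |(b : ℝ)| := by exact_mod_cast Int.one_le_abs hb
    push_cast at h2
    rw [abs_mul] at h2
    refine max_le ?_ hH
    nlinarith [abs_nonneg (c : ℝ)]
  · have ha1 : (1 : ℝ) ≤ |(a : ℝ)| := by exact_mod_cast Int.one_le_abs ha
    rw [max_eq_left ha1]
    by_cases hc : c = 0
    · have hd : d ≠ 0 := fun hd => hcd ⟨hc, hd⟩
      have hd1 : (1 : ℝ) ≤ |(d : ℝ)| := by exact_mod_cast Int.one_le_abs hd
      rw [hc, mul_zero, add_zero] at h2
      push_cast at h2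
      rw [abs_mul] at h2
      rw [hc, Int.cast_zero, abs_zero, max_eq_right (by norm_num : (0 : ℝ) ≤ 1), mul_one]
      nlinarith
    · have hc1 : (1 : ℝ) ≤ |(c : ℝ)| := by exact_mod_cast Int.one_le_abs hc
      rw [max_eq_left hc1]
      push_cast at h1
      rwa [abs_mul] at h1

/-- Dirichlet's pigeonhole argument for quadratic polynomials. -/
lemma pigeon (z : ℝ) (hz0 : 0 ≤ z) (hz1 : z ≤ 1) (A B : ℕ) (hA : 1 ≤ A) (hB : 1 ≤ B)
    (hAB : 2 ≤ A * B) :
    ∃ u v w : ℤ, ¬ (u = 0 ∧ v = 0) ∧ |(u : ℝ)| < A ∧ |(v : ℝ)| < B ∧ |(w : ℝ)| ≤ A + B ∧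
      |u * z ^ 2 + v * z + w| ≤ 2 / (A * B) := by
  classical
  set N := A * B - 1 with hN
  have hN1 : 1 ≤ N := by omega
  have hNpos : (0 : ℝ) < N := by exact_mod_cast hN1
  set f : ℕ × ℕ → ℝ := fun ij => (ij.1 : ℝ) * z ^ 2 + ij.2 * z with hf
  set F : ℕ × ℕ → ℕ := fun ij => ⌊(N : ℝ) * Int.fract (f ij)⌋₊ with hF
  have hmaps : ∀ ij ∈ Finset.range A ×ˢ Finset.range B, F ij ∈ Finset.range N := by
    intro ij _
    rw [Finset.mem_range]
    simp only [hF]
    rw [Nat.floor_lt (by have := Int.fract_nonneg (f ij); positivity)]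
    have := Int.fract_lt_one (f ij)
    nlinarith
  have hcard : (Finset.range N).card < (Finset.range A ×ˢ Finset.range B).card := by
    rw [Finset.card_product, Finset.card_range, Finset.card_range, Finset.card_range]
    omega
  obtain ⟨x, hx, y, hy, hxy, hFxy⟩ := Finset.exists_ne_map_eq_of_card_lt_of_maps_to hcard hmaps
  rw [Finset.mem_product, Finset.mem_range, Finset.mem_range] at hx hy
  have hfr : |Int.fract (f x) - Int.fract (f y)| ≤ 1 / N := by
    have hx1 := Nat.floor_le (by have := Int.fract_nonneg (f x); positivity :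
      0 ≤ (N : ℝ) * Int.fract (f x))
    have hx2 := Nat.lt_floor_add_one ((N : ℝ) * Int.fract (f x))
    have hy1 := Nat.floor_le (by have := Int.fract_nonneg (f y); positivity :
      0 ≤ (N : ℝ) * Int.fract (f y))
    have hy2 := Nat.lt_floor_add_one ((N : ℝ) * Int.fract (f y))
    simp only [hF] at hFxy
    rw [hFxy] at hx1 hx2
    rw [abs_le, div_eq_mul_inv, one_mul]
    have hinv : (N : ℝ) * (N : ℝ)⁻¹ = 1 := mul_inv_cancel₀ hNpos.ne'
    have h1 : (N : ℝ) * (Int.fract (f x) - Int.fract (f y)) ≤ N * (N : ℝ)⁻¹ := by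
      rw [hinv]; nlinarith
    have h2 : (N : ℝ) * (-(N : ℝ)⁻¹) ≤ N * (Int.fract (f x) - Int.fract (f y)) := by
      rw [mul_neg, hinv]; nlinarith
    exact ⟨le_of_mul_le_mul_left h2 hNpos, le_of_mul_le_mul_left h1 hNpos⟩
  have hfnn : ∀ ij : ℕ × ℕ, 0 ≤ f ij := fun ij => by simp only [hf]; positivity
  have hfle : ∀ ij : ℕ × ℕ, ij.1 < A → ij.2 < B → f ij ≤ A + B := by
    intro ij h1 h2
    simp only [hf]
    have h1' : (ij.1 : ℝ) ≤ A := by exact_mod_cast h1.le
    have h2' : (ij.2 : ℝ) ≤ B := by exact_mod_cast h2.le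
    have hz2 : z ^ 2 ≤ 1 := pow_le_one₀ hz0 hz1
    have h3 : (ij.1 : ℝ) * z ^ 2 ≤ ij.1 := mul_le_of_le_one_right (by positivity) hz2
    have h4 : (ij.2 : ℝ) * z ≤ ij.2 := mul_le_of_le_one_right (by positivity) hz1
    linarith
  refine ⟨(x.1 : ℤ) - y.1, (x.2 : ℤ) - y.2, -(⌊f x⌋ - ⌊f y⌋), ?_, ?_, ?_, ?_, ?_⟩
  · rintro ⟨h1, h2⟩
    apply hxy
    ext
    · have : (x.1 : ℤ) = y.1 := by linarith
      exact_mod_cast this
    · have : (x.2 : ℤ) = y.2 := by linarith
      exact_mod_cast this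
  · push_cast
    have h1 : (x.1 : ℝ) < A := by exact_mod_cast hx.1
    have h2 : (y.1 : ℝ) < A := by exact_mod_cast hy.1
    have h3 : (0 : ℝ) ≤ x.1 := by positivity
    have h4 : (0 : ℝ) ≤ y.1 := by positivity
    rw [abs_lt]; constructor <;> linarith
  · push_cast
    have h1 : (x.2 : ℝ) < B := by exact_mod_cast hx.2
    have h2 : (y.2 : ℝ) < B := by exact_mod_cast hy.2
    have h3 : (0 : ℝ) ≤ x.2 := by positivity
    have h4 : (0 : ℝ) ≤ y.2 := by positivity
    rw [abs_lt]; constructor <;> linarith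
  · push_cast
    rw [abs_neg]
    have h1 : ((⌊f x⌋ : ℤ) : ℝ) ≤ A + B := (Int.floor_le _).trans (hfle x hx.1 hx.2)
    have h2 : ((⌊f y⌋ : ℤ) : ℝ) ≤ A + B := (Int.floor_le _).trans (hfle y hy.1 hy.2)
    have h3 : (0 : ℝ) ≤ (⌊f x⌋ : ℤ) := by exact_mod_cast Int.floor_nonneg.mpr (hfnn x)
    have h4 : (0 : ℝ) ≤ (⌊f y⌋ : ℤ) := by exact_mod_cast Int.floor_nonneg.mpr (hfnn y)
    rw [abs_le]; constructor <;> linarith
  · have h1 : (((x.1 : ℤ) - y.1 : ℤ) : ℝ) * z ^ 2 + (((x.2 : ℤ) - y.2 : ℤ) : ℝ) * z +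
        ((-(⌊f x⌋ - ⌊f y⌋) : ℤ) : ℝ) = Int.fract (f x) - Int.fract (f y) := by
      unfold Int.fract
      simp only [hf]
      push_cast
      ring
    rw [h1]
    refine hfr.trans ?_
    rw [div_le_div_iff₀ hNpos (by positivity)]
    have h2 : ((A * B : ℕ) : ℝ) = N + 1 := by
      have : A * B = N + 1 := by omega
      exact_mod_cast this
    push_cast at h2
    have h3 : (1 : ℝ) ≤ N := by exact_mod_cast hN1
    linarith

end Pool.Agent.Lib.Helper15.Quad
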