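import Pool.Agent.Lib.Helper15.Quad.Windows

/-!
# The uniform exponent is at least `2 / θ`
-/

namespace Pool.Agent.Lib.Helper15.Quad

open Real

variable {g : ℕ → ℕ} (s : ℕ → Bool)

lemma log_two_le : Real.log 2 ≤ 0.7 := by have := Real.log_two_lt_d9; linarith
lemma le_log_two : 0.69 ≤ Real.log 2 := by have := Real.log_two_gt_d9; linarith

lemma log_le_of_le_two_pow {c : ℝ} (hc : 0 < c) (n : ℕ) (h : c ≤ 2 ^ n) :
    Real.log c ≤ 0.7 * n := by
  have h1 := Real.log_le_log hc h
  rw [Real.log_pow] at h1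
  have h2 := log_two_le
  have h3 : (0 : ℝ) ≤ n := Nat.cast_nonneg n
  nlinarith

/-- The previous jumps are negligible. -/
lemma prev_small (hg : ∀ m, 1 ≤ g m) {k : ℕ} {e : ℝ} (he : 0 < e) (hk : jump g s k)
    (hl : 16 / e ^ 2 ≤ Real.log (q g s k)) {j : ℕ} (hj : jump g s j) (hjk : j < k) :
    (q g s (j + 1) : ℝ) ≤ Real.exp (e * Real.log (q g s k) / 4) := by
  set l := Real.log (q g s k) with hldef
  have hqj := q_pos s hg (j + 1)
  rw [← Real.log_le_iff_le_exp hqj]
  have h1 : (q g s (j + 1) : ℝ) * Real.log (q g s (j + 1)) ≤ l := by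
    have h2 := pow_le_q s hg hj hk hjk
    have h3 : ((q g s (j + 1) : ℝ) ^ (q g s (j + 1))) ≤ q g s k := by exact_mod_cast h2
    have h4 := Real.log_le_log (by positivity) h3
    rw [Real.log_pow] at h4
    exact h4
  have hlog0 : 0 ≤ Real.log (q g s (j + 1)) :=
    Real.log_nonneg (by exact_mod_cast one_le_q s hg (j + 1))
  by_cases hc : 4 / e ≤ (q g s (j + 1) : ℝ)
  · have h5 : 4 / e * Real.log (q g s (j + 1)) ≤ l :=
      (mul_le_mul_of_nonneg_right hc hlog0).trans h1
    rw [div_mul_eq_mul_div, div_le_iff₀ he] at h5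
    linarith
  · push Not at hc
    have h5 : Real.log (q g s (j + 1)) ≤ 4 / e := by
      have h6 := Real.log_le_sub_one_of_pos hqj
      linarith
    have h6 : 16 / e ^ 2 * e = 16 / e := by field_simp
    have h7 : 16 / e ≤ l * e := by rw [← h6]; exact mul_le_mul_of_nonneg_right hl he.le
    have h8 : 16 / e = 4 * (4 / e) := by ring
    linarith

lemma log_q_succ_le (hg : ∀ m, 1 ≤ g m) {θ : ℝ}
    (hgθ : ∀ m : ℕ, 1 ≤ m → (g m : ℝ) ≤ (m : ℝ) ^ θ) {k : ℕ} (hk : jump g s k) :
    Real.log (q g s (k + 1)) ≤ 1.4 + (θ + 1) * Real.log (q g s k) := by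
  have hq := q_pos s hg k
  have hQ := q_pos s hg (k + 1)
  have h1 := q_succ_le s hg k
  have h2 := (a_of_jump s hk).2
  have h3 := hg (q g s k)
  have h4 : (q g s (k + 1) : ℝ) ≤ (a g s k + 1) * q g s k := by exact_mod_cast h1
  have h5 : (a g s k : ℝ) ≤ g (q g s k) + 1 := by exact_mod_cast h2
  have h6 : (1 : ℝ) ≤ g (q g s k) := by exact_mod_cast h3
  have h7 := hgθ (q g s k) (one_le_q s hg k)
  have h8 : (q g s (k + 1) : ℝ) ≤ 4 * ((q g s k : ℝ) ^ θ * q g s k) := by
    have : (a g s k : ℝ) + 1 ≤ 4 * (q g s k : ℝ) ^ θ := by linarith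
    calc (q g s (k + 1) : ℝ) ≤ (a g s k + 1) * q g s k := h4
      _ ≤ (4 * (q g s k : ℝ) ^ θ) * q g s k := mul_le_mul_of_nonneg_right this hq.le
      _ = _ := by ring
  have h9 := Real.log_le_log hQ h8
  have hpow : 0 < (q g s k : ℝ) ^ θ := Real.rpow_pos_of_pos hq θ
  rw [Real.log_mul (by norm_num) (by positivity), Real.log_mul hpow.ne' hq.ne',
    Real.log_rpow hq] at h9
  have h10 := log_le_of_le_two_pow (c := 4) (by norm_num) 2 (by norm_num)
  push_cast at h10
  linarith

lemma le_rpow_of_log {D X σ : ℝ} (hD : 0 < D) (hX : 0 < X)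
    (h : Real.log D ≤ -σ * Real.log X) : D ≤ X ^ (-σ) := by
  rwa [Real.le_rpow_iff_log_le hD hX]

/-- For every large `X` there is a triple of height at most `X`, not coming from a product of two
linear polynomials, with value at most `X ^ (-σ)`. -/
theorem lower (hg : ∀ m, 1 ≤ g m) {θ σ : ℝ} (hθ : 1 ≤ θ) (hσ : 0 ≤ σ) (hσθ : σ * θ < 2)
    (hgθ : ∀ m : ℕ, 1 ≤ m → (g m : ℝ) ≤ (m : ℝ) ^ θ) :
    ∀ᶠ X : ℝ in Filter.atTop, ∃ u v w : ℤ, ¬ Red u v w ∧ |(u : ℝ)| ≤ X ∧ |(v : ℝ)| ≤ X ∧
      |(w : ℝ)| ≤ X ∧ |u * zeta g s ^ 2 + v * zeta g s + w| ≤ X ^ (-σ) := by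
  classical
  set h : ℝ := (2 - σ * θ) / 2 with hh
  set e : ℝ := (2 - σ * θ) / (2 * (σ + 1)) with he
  have hh0 : 0 < h := by rw [hh]; linarith
  have he0 : 0 < e := by rw [he]; apply div_pos <;> linarith
  have he1 : e ≤ 1 := by
    rw [he, div_le_one (by linarith)]
    nlinarith [mul_nonneg hσ (by linarith : (0 : ℝ) ≤ θ)]
  have hσe : σ * e ≤ h := by
    have h1 : e * (σ + 1) = h := by rw [he, hh]; field_simp
    nlinarith
  have hσ2 : σ ≤ 2 := by nlinarith
  have hσh : h ≤ 2 - σ := by rw [hh]; nlinarith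
  set L0 : ℝ := 20 + 12 / e + 6 / h + 16 / e ^ 2 with hL0
  have hp1 : 0 < 12 / e := by positivity
  have hp2 : 0 < 6 / h := by positivity
  have hp3 : 0 < 16 / e ^ 2 := by positivity
  obtain ⟨k0, hk0, hjk0⟩ := exists_jump s hg (⌈Real.exp L0⌉₊)
  have hlk0 : L0 ≤ Real.log (q g s k0) := by
    rw [Real.le_log_iff_exp_le (q_pos s hg k0)]
    have h1 := le_q s hg k0
    have h2 : (⌈Real.exp L0⌉₊ : ℝ) ≤ q g s k0 := by exact_mod_cast hk0.trans h1
    exact (Nat.le_ceil _).trans h2
  filter_upwards [Filter.eventually_ge_atTop (q g s k0 : ℝ)] with X hX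
  have hXpos : 0 < X := lt_of_lt_of_le (q_pos s hg k0) hX
  -- the last jump before `X`
  set k := Nat.findGreatest (fun j => jump g s j ∧ (q g s j : ℝ) ≤ X) ⌊X⌋₊ with hk
  have hk0le : k0 ≤ ⌊X⌋₊ := by
    apply Nat.le_floor
    have h1 : (k0 : ℝ) ≤ q g s k0 := by exact_mod_cast le_q s hg k0
    linarith
  have hkspec : jump g s k ∧ (q g s k : ℝ) ≤ X :=
    Nat.findGreatest_spec (P := fun j => jump g s j ∧ (q g s j : ℝ) ≤ X) hk0le ⟨hjk0, hX⟩
  have hk0k : k0 ≤ k := Nat.le_findGreatest hk0le ⟨hjk0, hX⟩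
  have hXk : ∀ j, jump g s j → (q g s j : ℝ) ≤ X → j ≤ k := by
    intro j hj hjX
    refine Nat.le_findGreatest (Nat.le_floor ?_) ⟨hj, hjX⟩
    have h1 : (j : ℝ) ≤ q g s j := by exact_mod_cast le_q s hg j
    linarith
  obtain ⟨hjk, hqX⟩ := hkspec
  have hqpos := q_pos s hg k
  have hQpos := q_pos s hg (k + 1)
  set l := Real.log (q g s k) with hl
  have hlL : L0 ≤ l := by
    refine hlk0.trans (Real.log_le_log (q_pos s hg k0) ?_)
    exact_mod_cast q_mono s hg hk0k
  have hl20 : 20 ≤ l := by linarith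
  have hle : 12 ≤ e * l := by
    have h1 : 12 / e ≤ l := by linarith
    rw [div_le_iff₀ he0] at h1; linarith
  have hlh : 6 ≤ h * l := by
    have h1 : 6 / h ≤ l := by linarith
    rw [div_le_iff₀ hh0] at h1; linarith
  have hl0 : 0 ≤ l := by linarith
  set x := Real.log X with hx
  have hlx : l ≤ x := Real.log_le_log hqpos hqX
  set lam := Real.log (q g s (k + 1)) with hlam
  have hlamle : lam ≤ 1.4 + (θ + 1) * l := log_q_succ_le s hg hgθ hjk
  set E := Real.exp (e * l / 4) with hE
  have hE1 : 1 ≤ E := Real.one_le_exp (by positivity)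
  have hEpos : 0 < E := Real.exp_pos _
  have hElog : Real.log E = e * l / 4 := Real.log_exp _
  have hEprev : ∀ j, jump g s j → j < k → (q g s (j + 1) : ℝ) ≤ E := fun j hj hjk' =>
    prev_small s hg he0 hjk (by linarith) hj hjk'
  have hel : e * l ≤ l := by nlinarith
  have hq24 : (24 : ℝ) ≤ q g s k := by
    rw [← Real.log_le_log_iff (by norm_num) hqpos]
    have := log_le_of_le_two_pow (c := 24) (by norm_num) 5 (by norm_num)
    push_cast at this
    linarith
  have hq24' : 24 ≤ q g s k := by exact_mod_cast hq24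
  have hX24 : 24 ≤ X := by linarith
  have hQq : (q g s k : ℝ) ≤ q g s (k + 1) := by exact_mod_cast q_le_succ s hg k
  by_cases hw1 : x ≤ (θ + e) * l
  · -- window 1
    have hbig : 4608 * E ^ 2 < q g s k := by
      rw [← Real.log_lt_log_iff (by positivity) hqpos, Real.log_mul (by norm_num) (by positivity),
        Real.log_pow, hElog]
      have := log_le_of_le_two_pow (c := 4608) (by norm_num) 13 (by norm_num)
      push_cast at this ⊢
      linarith
    obtain ⟨u, v, w, hred, hu, hv, hw, hD⟩ := window1 s hg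
      (fun j hj hjq => hXk j hj (hjq.trans hqX)) hE1 hEprev (by omega) hbig
    refine ⟨u, v, w, hred, hu.trans hqX, hv.trans hqX, hw.trans hqX, hD.trans ?_⟩
    apply le_rpow_of_log (by positivity) hXpos
    rw [Real.log_div (by norm_num) (by positivity), Real.log_pow]
    have := log_le_of_le_two_pow (c := 32) (by norm_num) 5 (by norm_num)
    push_cast at this ⊢
    have h1 : σ * x ≤ σ * ((θ + e) * l) := mul_le_mul_of_nonneg_left hw1 hσ
    have h2 : σ * ((θ + e) * l) = (σ * θ) * l + (σ * e) * l := by ring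
    have h3 : (σ * e) * l ≤ h * l := mul_le_mul_of_nonneg_right hσe hl0
    have h4 : (σ * θ) * l = 2 * l - 2 * (h * l) := by rw [hh]; ring
    linarith
  · push Not at hw1
    have hxl : θ * l + e * l < x := by linarith
    have hθl : l ≤ θ * l := by nlinarith
    by_cases hw2 : X ≤ 2 * (q g s k : ℝ) ^ 2 ∨ 12 * (q g s (k + 1) : ℝ) ≤ X
    · -- square box
      have hc1 : 768 * (q g s (k + 1) : ℝ) * E < q g s k * X := by
        rw [← Real.log_lt_log_iff (by positivity) (by positivity),
          Real.log_mul (by positivity) (by positivity), Real.log_mul (by norm_num) (by positivity),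
          Real.log_mul (by positivity) (by positivity), hElog]
        have := log_le_of_le_two_pow (c := 768) (by norm_num) 10 (by norm_num)
        push_cast at this
        have h5 : (θ + 1) * l = θ * l + l := by ring
        linarith
      have hc2 : 4608 * E ^ 2 < X := by
        rw [← Real.log_lt_log_iff (by positivity) hXpos, Real.log_mul (by norm_num) (by positivity),
          Real.log_pow, hElog]
        have := log_le_of_le_two_pow (c := 4608) (by norm_num) 13 (by norm_num)
        push_cast at this ⊢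
        linarith
      obtain ⟨u, v, w, hred, hu, hv, hw, hD⟩ := window_sq s hg (by linarith) hXk hE1 hEprev
        hw2 hc1 hc2
      refine ⟨u, v, w, hred, hu, hv, hw, hD.trans ?_⟩
      apply le_rpow_of_log (by positivity) hXpos
      rw [Real.log_div (by norm_num) (by positivity), Real.log_pow]
      have := log_le_of_le_two_pow (c := 32) (by norm_num) 5 (by norm_num)
      push_cast at this ⊢
      have h1 : h * l ≤ (2 - σ) * x := mul_le_mul hσh hlx hl0 (by linarith)
      linarith
    · push Not at hw2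
      obtain ⟨hw2, hw3⟩ := hw2
      have hxlam : x ≤ 2.8 + lam := by
        have h1 := Real.log_le_log hXpos hw3.le
        rw [Real.log_mul (by norm_num) (by positivity)] at h1
        have := log_le_of_le_two_pow (c := 12) (by norm_num) 4 (by norm_num)
        push_cast at this
        linarith
      have h5 : (θ + 1) * l = θ * l + l := by ring
      have hc1 : 32 * (q g s (k + 1) : ℝ) < q g s k * X := by
        rw [← Real.log_lt_log_iff (by positivity) (by positivity),
          Real.log_mul (by norm_num) (by positivity),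
          Real.log_mul (by positivity) (by positivity)]
        have := log_le_of_le_two_pow (c := 32) (by norm_num) 5 (by norm_num)
        push_cast at this
        linarith
      have hc2 : 1152 * E ^ 2 < (q g s k : ℝ) ^ 2 := by
        rw [← Real.log_lt_log_iff (by positivity) (by positivity),
          Real.log_mul (by norm_num) (by positivity), Real.log_pow, hElog, Real.log_pow]
        have := log_le_of_le_two_pow (c := 1152) (by norm_num) 11 (by norm_num)
        push_cast at this ⊢
        linarith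
      obtain ⟨u, v, w, hred, hu, hv, hw, hD⟩ := window_rect s hg hq24' hXk hE1 hEprev hw2.le
        hw3.le hc1 hc2
      refine ⟨u, v, w, hred, hu, hv, hw, hD.trans ?_⟩
      apply le_rpow_of_log (by positivity) hXpos
      rw [Real.log_div (by norm_num) (by positivity), Real.log_mul (by positivity) (by positivity),
        Real.log_pow]
      have := log_le_of_le_two_pow (c := 8) (by norm_num) 3 (by norm_num)
      push_cast at this ⊢
      -- need `log 8 - (2 l + x) ≤ -σ x`
      by_cases hσ1 : σ ≤ 1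
      · have h6 : 0 ≤ (1 - σ) * x := mul_nonneg (by linarith) (by linarith)
        linarith
      · push Not at hσ1
        have h6 : (σ - 1) * x ≤ (σ - 1) * (2.8 + (1.4 + (θ + 1) * l)) :=
          mul_le_mul_of_nonneg_left (by linarith) (by linarith)
        have h7 : (σ - 1) * (2.8 + (1.4 + (θ + 1) * l)) =
          (σ - 1) * 4.2 + (σ * θ) * l + σ * l - θ * l - l := by ring
        have h8 : (σ * θ) * l = 2 * l - 2 * (h * l) := by rw [hh]; ring
        have h9 : σ * l ≤ θ * l + l := by nlinarith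
        linarith

end Pool.Agent.Lib.Helper15.Quad
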