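import Pool.Agent.Lib.Helper15.Quad.Lower

/-!
# Integer polynomials of degree two, and the upper bound for the uniform exponent
-/

namespace Pool.Agent.Lib.Helper15.Quad

open Polynomial

lemma aeval_of_natDegree_le_two (z : ℝ) (P : ℤ[X]) (h : P.natDegree ≤ 2) :
    aeval z P = P.coeff 2 * z ^ 2 + P.coeff 1 * z + P.coeff 0 := by
  rw [aeval_eq_sum_range' (n := 3) (by omega)]
  simp only [Finset.sum_range_succ, Finset.sum_range_zero, zero_add, pow_zero, pow_one,
    zsmul_eq_mul, mul_one]
  ring

/-- An irreducible polynomial of degree two has no rational root. -/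
lemma no_root_of_irreducible {P : ℤ[X]} (hP : Irreducible P) (hdeg : P.natDegree = 2)
    (a : ℤ) (b : ℕ) (hb : b ≠ 0) :
    P.coeff 2 * a ^ 2 + P.coeff 1 * (a * b) + P.coeff 0 * (b : ℤ) ^ 2 ≠ 0 := by
  intro hroot
  have hprim : P.IsPrimitive := hP.isPrimitive (by omega)
  have hirr : Irreducible (P.map (Int.castRingHom ℚ)) :=
    (Polynomial.IsPrimitive.Int.irreducible_iff_irreducible_map_cast hprim).mp hP
  have hb' : (b : ℚ) ≠ 0 := by exact_mod_cast hb
  have hr : (P.map (Int.castRingHom ℚ)).IsRoot ((a : ℚ) / b) := by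
    rw [IsRoot.def, eval_map, eval₂_eq_sum_range' _ (n := 3) (by omega)]
    simp only [Finset.sum_range_succ, Finset.sum_range_zero, zero_add, pow_zero, pow_one, mul_one,
      eq_intCast]
    have h1 : (P.coeff 2 : ℚ) * a ^ 2 + P.coeff 1 * (a * b) + P.coeff 0 * (b : ℚ) ^ 2 = 0 := by
      exact_mod_cast hroot
    field_simp
    linear_combination h1
  have h2 := Polynomial.degree_eq_one_of_irreducible_of_root hirr hr
  have h3 : (P.map (Int.castRingHom ℚ)).natDegree = 1 := natDegree_eq_of_degree_eq_some h2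
  rw [natDegree_map_eq_of_injective (Int.cast_injective (α := ℚ))] at h3
  omega

lemma eq_of_natDegree_le_one (P : ℤ[X]) (h : P.natDegree ≤ 1) :
    P = C (P.coeff 1) * X + C (P.coeff 0) := Polynomial.eq_X_add_C_of_natDegree_le_one h

lemma quad_coeff_two (a b c : ℤ) : (C a * X ^ 2 + C b * X + C c : ℤ[X]).coeff 2 = a := by
  simp only [coeff_add, coeff_C_mul, coeff_X_pow, coeff_X, coeff_C]
  norm_num

lemma quad_coeff_one (a b c : ℤ) : (C a * X ^ 2 + C b * X + C c : ℤ[X]).coeff 1 = b := by
  simp only [coeff_add, coeff_C_mul, coeff_X_pow, coeff_X, coeff_C]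
  norm_num

lemma quad_coeff_zero (a b c : ℤ) : (C a * X ^ 2 + C b * X + C c : ℤ[X]).coeff 0 = c := by
  simp only [coeff_add, coeff_C_mul, coeff_X_pow, coeff_X, coeff_C]
  norm_num

/-- A triple not coming from a product of linear polynomials gives an irreducible polynomial. -/
lemma exists_irreducible {u v w : ℤ} (h : ¬ Red u v w) (z : ℝ) :
    ∃ P : ℤ[X], Irreducible P ∧ P.natDegree = 2 ∧
      (∀ i, |P.coeff i| ≤ max |u| (max |v| |w|)) ∧
      |aeval z P| ≤ |u * z ^ 2 + v * z + w| := by
  have hu : u ≠ 0 := by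
    rintro rfl
    exact h ⟨0, 1, v, w, by ring, by ring, by ring⟩
  set D : ℤ[X] := C u * X ^ 2 + C v * X + C w with hD
  have hdeg : D.natDegree = 2 := natDegree_quadratic hu
  have hc2 : D.coeff 2 = u := quad_coeff_two u v w
  have hc1 : D.coeff 1 = v := quad_coeff_one u v w
  have hc0 : D.coeff 0 = w := quad_coeff_zero u v w
  have hD0 : D ≠ 0 := by
    intro h0
    rw [h0] at hc2
    simp at hc2
    exact hu hc2.symm
  have hcont : D.content ≠ 0 := by rwa [Ne, content_eq_zero_iff]
  have hcont1 : (1 : ℤ) ≤ |D.content| := Int.one_le_abs hcont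
  have hfac := D.eq_C_content_mul_primPart
  have hpdeg : D.primPart.natDegree = 2 := by rw [natDegree_primPart]; exact hdeg
  have hprim := D.isPrimitive_primPart
  refine ⟨D.primPart, ?_, hpdeg, ?_, ?_⟩
  · constructor
    · intro hunit
      have := natDegree_eq_zero_of_isUnit hunit
      omega
    · intro A B hAB
      by_contra hcon
      push Not at hcon
      obtain ⟨hA, hB⟩ := hcon
      have hne : D.primPart ≠ 0 := hprim.ne_zero
      have hA0 : A ≠ 0 := by rintro rfl; rw [zero_mul] at hAB; exact hne hAB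
      have hB0 : B ≠ 0 := by rintro rfl; rw [mul_zero] at hAB; exact hne hAB
      have hsum : A.natDegree + B.natDegree = 2 := by
        rw [← natDegree_mul hA0 hB0, ← hAB, hpdeg]
      have hApos : A.natDegree ≠ 0 := by
        intro h0
        rw [natDegree_eq_zero] at h0
        obtain ⟨r, rfl⟩ := h0
        apply hA
        have h1 : C r ∣ D.primPart := ⟨B, hAB⟩
        exact isUnit_C.mpr (hprim r h1)
      have hBpos : B.natDegree ≠ 0 := by
        intro h0
        rw [natDegree_eq_zero] at h0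
        obtain ⟨r, rfl⟩ := h0
        apply hB
        have h1 : C r ∣ D.primPart := ⟨A, by rw [hAB, mul_comm]⟩
        exact isUnit_C.mpr (hprim r h1)
      have hA1 := eq_of_natDegree_le_one A (by omega)
      have hB1 := eq_of_natDegree_le_one B (by omega)
      apply h
      have hDprod : D = C (D.content * A.coeff 1 * B.coeff 1) * X ^ 2 +
          C (D.content * A.coeff 1 * B.coeff 0 + D.content * A.coeff 0 * B.coeff 1) * X +
          C (D.content * A.coeff 0 * B.coeff 0) := by
        conv_lhs => rw [hfac, hAB, hA1, hB1]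
        simp only [map_mul, map_add]
        ring
      refine ⟨D.content * A.coeff 1, D.content * A.coeff 0, B.coeff 1, B.coeff 0, ?_, ?_, ?_⟩
      · exact hc2.symm.trans ((congrArg (fun Q : ℤ[X] => Q.coeff 2) hDprod).trans
          (quad_coeff_two _ _ _))
      · exact hc1.symm.trans ((congrArg (fun Q : ℤ[X] => Q.coeff 1) hDprod).trans
          (quad_coeff_one _ _ _))
      · exact hc0.symm.trans ((congrArg (fun Q : ℤ[X] => Q.coeff 0) hDprod).trans
          (quad_coeff_zero _ _ _))
  · intro i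
    have h1 : D.coeff i = D.content * D.primPart.coeff i := by
      conv_lhs => rw [hfac]
      rw [coeff_C_mul]
    have h2 : |D.primPart.coeff i| ≤ |D.coeff i| := by
      rw [h1, abs_mul]
      nlinarith [abs_nonneg (D.primPart.coeff i)]
    refine h2.trans ?_
    rcases lt_or_ge 2 i with hi | hi
    · rw [coeff_eq_zero_of_natDegree_lt (by omega), abs_zero]
      exact le_max_of_le_left (abs_nonneg _)
    · interval_cases i
      · rw [hc0]; exact le_max_of_le_right (le_max_right _ _)
      · rw [hc1]; exact le_max_of_le_right (le_max_left _ _)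
      · rw [hc2]; exact le_max_left _ _
  · have h1 : aeval z D = D.content * aeval z D.primPart := by
      conv_lhs => rw [hfac]
      rw [map_mul, aeval_C]
      rfl
    have h2 : aeval z D = u * z ^ 2 + v * z + w := by
      rw [aeval_of_natDegree_le_two z D hdeg.le, hc2, hc1, hc0]
    rw [← h2, h1, abs_mul]
    have h3 : (1 : ℝ) ≤ |(D.content : ℝ)| := by exact_mod_cast hcont1
    nlinarith [abs_nonneg (aeval z D.primPart)]

variable {g : ℕ → ℕ} (s : ℕ → Bool)

/-- At a jump, irreducible quadratic polynomials of moderate height are not small. -/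
lemma upper_aux (hg : ∀ m, 1 ≤ g m) {k : ℕ} (hk : jump g s k) {P : ℤ[X]} (hP : Irreducible P)
    (hdeg : P.natDegree = 2) {H : ℝ} (hH : ∀ i, |(P.coeff i : ℝ)| ≤ H)
    (hHg : 12 * H ≤ g (q g s k)) :
    1 / (2 * (q g s k : ℝ) ^ 2) ≤ |aeval (zeta g s) P| := by
  have hq := q_pos s hg k
  have hq1 : (1 : ℝ) ≤ q g s k := by exact_mod_cast one_le_q s hg k
  have hQ := q_pos s hg (k + 1)
  rw [aeval_of_natDegree_le_two _ P hdeg.le]
  have hne := no_root_of_irreducible hP hdeg (p g s k) (q g s k) (by
    have := one_le_q s hg k; omega)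
  set u := P.coeff 2
  set v := P.coeff 1
  set w := P.coeff 0
  set δ : ℝ := q g s k * zeta g s - p g s k with hδ
  have hδabs : |δ| = del g s k := del_abs s hg k
  have hδlt := del_lt s hg k
  have hgQ : (g (q g s k) : ℝ) * q g s k ≤ q g s (k + 1) := by
    have h1 := a_mul_q_le (g := g) s k
    have h2 := (a_of_jump s hk).1
    have h3 : g (q g s k) * q g s k ≤ q g s (k + 1) :=
      (Nat.mul_le_mul_right _ h2).trans h1
    exact_mod_cast h3
  have hδ1 : |δ| ≤ 1 := by
    rw [hδabs]
    have : 1 / (q g s (k + 1) : ℝ) ≤ 1 := by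
      rw [div_le_one hQ]
      exact_mod_cast one_le_q s hg (k + 1)
    linarith
  have hid : (q g s k : ℝ) ^ 2 * (u * zeta g s ^ 2 + v * zeta g s + w) =
      (u * p g s k ^ 2 + v * (p g s k * q g s k) + w * (q g s k) ^ 2) +
        δ * (u * (2 * (q g s k * zeta g s) - δ) + v * q g s k) := by
    rw [hδ]; ring
  have h1 : (1 : ℝ) ≤ |(u : ℝ) * p g s k ^ 2 + v * (p g s k * q g s k) + w * (q g s k) ^ 2| := by
    have := Int.one_le_abs hne
    exact_mod_cast this
  have hz0 := zeta_pos s hg
  have hz1 := zeta_lt_one s hg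
  have hH0 : 0 ≤ H := (abs_nonneg _).trans (hH 0)
  have h2 : |u * (2 * (q g s k * zeta g s) - δ) + v * (q g s k : ℝ)| ≤ H * (4 * q g s k) := by
    have h3 : |2 * (q g s k * zeta g s) - δ| ≤ 3 * q g s k := by
      have := abs_le.mp hδ1
      rw [abs_le]
      constructor <;> nlinarith
    calc |u * (2 * (q g s k * zeta g s) - δ) + v * (q g s k : ℝ)|
        ≤ |u * (2 * (q g s k * zeta g s) - δ)| + |v * (q g s k : ℝ)| := abs_add_le _ _
      _ = |(u : ℝ)| * |2 * (q g s k * zeta g s) - δ| + |(v : ℝ)| * q g s k := by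
          rw [abs_mul, abs_mul, abs_of_pos hq]
      _ ≤ H * (3 * q g s k) + H * q g s k := by
          have h4 := hH 2
          have h5 := hH 1
          have h6 : |(u : ℝ)| * |2 * (q g s k * zeta g s) - δ| ≤ H * (3 * q g s k) :=
            mul_le_mul h4 h3 (abs_nonneg _) hH0
          have h7 : |(v : ℝ)| * q g s k ≤ H * q g s k := mul_le_mul_of_nonneg_right h5 hq.le
          linarith
      _ = H * (4 * q g s k) := by ring
  have h3 : |δ * (u * (2 * (q g s k * zeta g s) - δ) + v * (q g s k : ℝ))| ≤ 1 / 2 := by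
    rw [abs_mul, hδabs]
    have h4 : del g s k * |u * (2 * (q g s k * zeta g s) - δ) + v * (q g s k : ℝ)| ≤
        1 / (q g s (k + 1) : ℝ) * (H * (4 * q g s k)) :=
      mul_le_mul hδlt.le h2 (abs_nonneg _) (by positivity)
    refine h4.trans ?_
    rw [div_mul_eq_mul_div, one_mul, div_le_iff₀ hQ]
    have h5 : 12 * H * q g s k ≤ g (q g s k) * q g s k := mul_le_mul_of_nonneg_right hHg hq.le
    nlinarith
  have h4 : 1 / 2 ≤ (q g s k : ℝ) ^ 2 * |u * zeta g s ^ 2 + v * zeta g s + w| := by
    have h5 : (q g s k : ℝ) ^ 2 * |u * zeta g s ^ 2 + v * zeta g s + w| =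
        |(q g s k : ℝ) ^ 2 * (u * zeta g s ^ 2 + v * zeta g s + w)| := by
      rw [abs_mul, abs_of_pos (by positivity : (0 : ℝ) < (q g s k : ℝ) ^ 2)]
    rw [h5, hid]
    have h6 := abs_sub_abs_le_abs_add
      ((u : ℝ) * p g s k ^ 2 + v * (p g s k * q g s k) + w * (q g s k) ^ 2)
      (δ * (u * (2 * (q g s k * zeta g s) - δ) + v * (q g s k : ℝ)))
    linarith
  rw [div_le_iff₀ (by positivity)]
  linarith

end Pool.Agent.Lib.Helper15.Quad
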