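import Pool.Agent.Lib.Helper15.Quad.Forms

/-!
# Irreducible quadratic polynomials with small values
-/

namespace Pool.Agent.Lib.Helper15.Quad

variable {g : ℕ → ℕ} (s : ℕ → Bool)

lemma red_core (hg : ∀ m, 1 ≤ g m) {k : ℕ} {X E : ℝ} (hX1 : 1 ≤ X)
    (hX : ∀ j, jump g s j → (q g s j : ℝ) ≤ X → j ≤ k) (hE1 : 1 ≤ E)
    (hE : ∀ j, jump g s j → j < k → (q g s (j + 1) : ℝ) ≤ E)
    {u v w : ℤ} (huv : ¬ (u = 0 ∧ v = 0)) (hu : |(u : ℝ)| ≤ X) (hv : |(v : ℝ)| ≤ X)
    (hred : Red u v w) :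
    1 / (144 * X * E ^ 2) ≤ |u * zeta g s ^ 2 + v * zeta g s + w| ∨
    (∃ c d : ℤ, ¬ (c = 0 ∧ d = 0) ∧ c * p g s k + d * q g s k ≠ 0 ∧
      q g s k * max |(c : ℝ)| 1 ≤ X ∧
      1 / (2 * (q g s (k + 1) : ℝ)) * |c * zeta g s + d| ≤
        |u * zeta g s ^ 2 + v * zeta g s + w|) ∨
    ((q g s k : ℝ) ^ 2 ≤ |(u : ℝ)| ∧
      (1 / (2 * (q g s (k + 1) : ℝ))) ^ 2 ≤ |u * zeta g s ^ 2 + v * zeta g s + w|) := by
  obtain ⟨a, b, c, d, rfl, rfl, rfl⟩ := hred
  have hab : ¬ (a = 0 ∧ b = 0) := by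
    rintro ⟨rfl, rfl⟩
    apply huv
    constructor <;> ring
  have hcd : ¬ (c = 0 ∧ d = 0) := by
    rintro ⟨rfl, rfl⟩
    apply huv
    constructor <;> ring
  have hprod := red_bound hX1 hu hv hab hcd
  have ha1 : (1 : ℝ) ≤ max |(a : ℝ)| 1 := le_max_right _ _
  have hc1 : (1 : ℝ) ≤ max |(c : ℝ)| 1 := le_max_right _ _
  have haX : |(a : ℝ)| ≤ X := by
    have := le_max_left |(a : ℝ)| 1
    nlinarith
  have hcX : |(c : ℝ)| ≤ X := by
    have := le_max_left |(c : ℝ)| 1
    nlinarith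
  have hval : |((a * c : ℤ) : ℝ) * zeta g s ^ 2 + ((a * d + b * c : ℤ) : ℝ) * zeta g s +
      ((b * d : ℤ) : ℝ)| = |a * zeta g s + b| * |c * zeta g s + d| := by
    rw [← abs_mul]
    congr 1
    push_cast
    ring
  rw [hval]
  have hQ := q_pos s hg (k + 1)
  by_cases hpa : a * p g s k + b * q g s k = 0
  · have ha0 := ne_zero_of_prop s hg k a b hpa hab
    have h1 := le_abs_of_prop s k a b hpa ha0
    have h2 := del_le_of_prop s hg k a b hpa ha0
    have h3 := (half_lt_del s hg k).le.trans h2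
    by_cases hpc : c * p g s k + d * q g s k = 0
    · have hc0 := ne_zero_of_prop s hg k c d hpc hcd
      have h4 := le_abs_of_prop s k c d hpc hc0
      have h5 := del_le_of_prop s hg k c d hpc hc0
      have h6 := (half_lt_del s hg k).le.trans h5
      right; right
      constructor
      · push_cast
        rw [abs_mul, sq]
        exact mul_le_mul h1 h4 (by positivity) (abs_nonneg _)
      · rw [sq]
        exact mul_le_mul h3 h6 (by positivity) (abs_nonneg _)
    · right; left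
      refine ⟨c, d, hcd, hpc, ?_, ?_⟩
      · refine le_trans ?_ hprod
        have h4 : (q g s k : ℝ) ≤ max |(a : ℝ)| 1 := h1.trans (le_max_left _ _)
        exact mul_le_mul_of_nonneg_right h4 (by positivity)
      · exact mul_le_mul_of_nonneg_right h3 (abs_nonneg _)
  · have hla := (form_lower s hg hX hE1 hE a b hab haX).resolve_left hpa
    by_cases hpc : c * p g s k + d * q g s k = 0
    · have hc0 := ne_zero_of_prop s hg k c d hpc hcd
      have h1 := le_abs_of_prop s k c d hpc hc0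
      have h2 := del_le_of_prop s hg k c d hpc hc0
      have h3 := (half_lt_del s hg k).le.trans h2
      right; left
      refine ⟨a, b, hab, hpa, ?_, ?_⟩
      · refine le_trans ?_ hprod
        have h4 : (q g s k : ℝ) ≤ max |(c : ℝ)| 1 := h1.trans (le_max_left _ _)
        rw [mul_comm]
        exact mul_le_mul_of_nonneg_left h4 (by positivity)
      · rw [mul_comm |(a : ℝ) * zeta g s + b|]
        exact mul_le_mul_of_nonneg_right h3 (abs_nonneg _)
    · have hlc := (form_lower s hg hX hE1 hE c d hcd hcX).resolve_left hpc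
      left
      refine le_trans ?_ (mul_le_mul hla hlc (by positivity) (abs_nonneg _))
      rw [div_mul_div_comm, one_mul]
      apply one_div_le_one_div_of_le (by positivity)
      have h5 : (12 * max |(a : ℝ)| 1 * E) * (12 * max |(c : ℝ)| 1 * E) =
          144 * (max |(a : ℝ)| 1 * max |(c : ℝ)| 1) * E ^ 2 := by ring
      rw [h5]
      have hE2 : (0 : ℝ) ≤ E ^ 2 := by positivity
      nlinarith [mul_le_mul_of_nonneg_right hprod hE2]

/-- First window: a polynomial of height about `q_k`. -/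
lemma window1 (hg : ∀ m, 1 ≤ g m) {k : ℕ} {E : ℝ}
    (hX : ∀ j, jump g s j → (q g s j : ℝ) ≤ q g s k → j ≤ k) (hE1 : 1 ≤ E)
    (hE : ∀ j, jump g s j → j < k → (q g s (j + 1) : ℝ) ≤ E) (hq4 : 4 ≤ q g s k)
    (hbig : 4608 * E ^ 2 < q g s k) :
    ∃ u v w : ℤ, ¬ Red u v w ∧ |(u : ℝ)| ≤ q g s k ∧ |(v : ℝ)| ≤ q g s k ∧ |(w : ℝ)| ≤ q g s k ∧
      |u * zeta g s ^ 2 + v * zeta g s + w| ≤ 32 / (q g s k : ℝ) ^ 2 := by
  have hqpos := q_pos s hg k
  set A : ℕ := q g s k / 2 with hA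
  have hA2 : 2 ≤ A := by omega
  have hA4 : q g s k ≤ 4 * A := by omega
  have hA2' : 2 * A ≤ q g s k := by omega
  have hA4' : (q g s k : ℝ) ≤ 4 * A := by exact_mod_cast hA4
  have hA2'' : 2 * (A : ℝ) ≤ q g s k := by exact_mod_cast hA2'
  have hApos : (0 : ℝ) < A := by exact_mod_cast (by omega : 0 < A)
  obtain ⟨u, v, w, huv, hu, hv, hw, hD⟩ := pigeon (zeta g s) (zeta_pos s hg).le
    (zeta_lt_one s hg).le A A (by omega) (by omega) (by nlinarith)
  have hD' : |u * zeta g s ^ 2 + v * zeta g s + w| ≤ 32 / (q g s k : ℝ) ^ 2 := by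
    refine hD.trans ?_
    rw [div_le_div_iff₀ (by positivity) (by positivity)]
    nlinarith
  refine ⟨u, v, w, ?_, by linarith, by linarith, by linarith, hD'⟩
  intro hred
  have hq1 : (1 : ℝ) ≤ q g s k := by exact_mod_cast one_le_q s hg k
  rcases red_core s hg hq1 hX hE1 hE huv (by linarith) (by linarith) hred with h | h | h
  · have h1 := h.trans hD'
    rw [div_le_div_iff₀ (by positivity) (by positivity)] at h1
    nlinarith
  · -- excluded by height: rerun with the smaller bound `q/2`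
    obtain ⟨a, b, c, d, rfl, rfl, rfl⟩ := hred
    have hab : ¬ (a = 0 ∧ b = 0) := by
      rintro ⟨rfl, rfl⟩; apply huv; constructor <;> ring
    have hcd : ¬ (c = 0 ∧ d = 0) := by
      rintro ⟨rfl, rfl⟩; apply huv; constructor <;> ring
    have hA1 : (1 : ℝ) ≤ A := by exact_mod_cast (by omega : 1 ≤ A)
    have hprod := red_bound hA1 hu.le hv.le hab hcd
    have ha1 : (1 : ℝ) ≤ max |(a : ℝ)| 1 := le_max_right _ _
    have hc1 : (1 : ℝ) ≤ max |(c : ℝ)| 1 := le_max_right _ _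
    have haA : |(a : ℝ)| ≤ A := by
      have := le_max_left |(a : ℝ)| 1
      nlinarith
    have hcA : |(c : ℝ)| ≤ A := by
      have := le_max_left |(c : ℝ)| 1
      nlinarith
    have hpa : ¬ (a * p g s k + b * q g s k = 0) := by
      intro hp
      have := le_abs_of_prop s k a b hp (ne_zero_of_prop s hg k a b hp hab)
      linarith
    have hpc : ¬ (c * p g s k + d * q g s k = 0) := by
      intro hp
      have := le_abs_of_prop s k c d hp (ne_zero_of_prop s hg k c d hp hcd)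
      linarith
    have hla := (form_lower s hg hX hE1 hE a b hab (by linarith)).resolve_left hpa
    have hlc := (form_lower s hg hX hE1 hE c d hcd (by linarith)).resolve_left hpc
    have hval : |((a * c : ℤ) : ℝ) * zeta g s ^ 2 + ((a * d + b * c : ℤ) : ℝ) * zeta g s +
        ((b * d : ℤ) : ℝ)| = |a * zeta g s + b| * |c * zeta g s + d| := by
      rw [← abs_mul]
      congr 1
      push_cast
      ring
    rw [hval] at hD'
    have h5 := (mul_le_mul hla hlc (by positivity) (abs_nonneg _)).trans hD'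
    rw [div_mul_div_comm, one_mul, div_le_div_iff₀ (by positivity) (by positivity)] at h5
    have h6 : 32 * (12 * max |(a : ℝ)| 1 * E * (12 * max |(c : ℝ)| 1 * E)) =
        4608 * E ^ 2 * (max |(a : ℝ)| 1 * max |(c : ℝ)| 1) := by ring
    rw [h6] at h5
    have hE2 : (0 : ℝ) ≤ E ^ 2 := by positivity
    nlinarith [mul_le_mul_of_nonneg_left hprod (by positivity : (0 : ℝ) ≤ 4608 * E ^ 2)]
  · have h1 := h.1
    nlinarith

/-- Square box. -/
lemma window_sq (hg : ∀ m, 1 ≤ g m) {k : ℕ} {X E : ℝ} (hX4 : 4 ≤ X)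
    (hX : ∀ j, jump g s j → (q g s j : ℝ) ≤ X → j ≤ k) (hE1 : 1 ≤ E)
    (hE : ∀ j, jump g s j → j < k → (q g s (j + 1) : ℝ) ≤ E)
    (hcase : X ≤ 2 * (q g s k : ℝ) ^ 2 ∨ 12 * (q g s (k + 1) : ℝ) ≤ X)
    (hc1 : 768 * (q g s (k + 1) : ℝ) * E < q g s k * X) (hc2 : 4608 * E ^ 2 < X) :
    ∃ u v w : ℤ, ¬ Red u v w ∧ |(u : ℝ)| ≤ X ∧ |(v : ℝ)| ≤ X ∧ |(w : ℝ)| ≤ X ∧
      |u * zeta g s ^ 2 + v * zeta g s + w| ≤ 32 / X ^ 2 := by
  have hqpos := q_pos s hg k
  have hQpos := q_pos s hg (k + 1)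
  set A : ℕ := ⌊X / 2⌋₊ with hA
  have hA2 : 2 ≤ A := Nat.le_floor (by push_cast; linarith)
  have hA1 : (A : ℝ) ≤ X / 2 := Nat.floor_le (by linarith)
  have hA3 : X / 2 < A + 1 := Nat.lt_floor_add_one _
  have hA4 : X ≤ 4 * A := by
    have : (2 : ℝ) ≤ A := by exact_mod_cast hA2
    linarith
  have hApos : (0 : ℝ) < A := by exact_mod_cast (by omega : 0 < A)
  obtain ⟨u, v, w, huv, hu, hv, hw, hD⟩ := pigeon (zeta g s) (zeta_pos s hg).le
    (zeta_lt_one s hg).le A A (by omega) (by omega) (by nlinarith)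
  have hD' : |u * zeta g s ^ 2 + v * zeta g s + w| ≤ 32 / X ^ 2 := by
    refine hD.trans ?_
    rw [div_le_div_iff₀ (by positivity) (by positivity)]
    nlinarith
  refine ⟨u, v, w, ?_, by linarith, by linarith, by linarith, hD'⟩
  intro hred
  rcases red_core s hg (by linarith) hX hE1 hE huv (by linarith) (by linarith) hred with
    h | ⟨c, d, hcd, hpc, hcX, hval⟩ | h
  · have h1 := h.trans hD'
    rw [div_le_div_iff₀ (by positivity) (by positivity)] at h1
    nlinarith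
  · have hc0 : (1 : ℝ) ≤ max |(c : ℝ)| 1 := le_max_right _ _
    have hq1 : (1 : ℝ) ≤ q g s k := by exact_mod_cast one_le_q s hg k
    have hcX' : |(c : ℝ)| ≤ X := by
      have := le_max_left |(c : ℝ)| 1
      nlinarith
    have hl := (form_lower s hg hX hE1 hE c d hcd hcX').resolve_left hpc
    have h1 := (mul_le_mul_of_nonneg_left hl
      (by positivity : (0 : ℝ) ≤ 1 / (2 * (q g s (k + 1) : ℝ)))).trans (hval.trans hD')
    rw [div_mul_div_comm, one_mul, div_le_div_iff₀ (by positivity) (by positivity)] at h1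
    have h2 : 32 * (2 * (q g s (k + 1) : ℝ) * (12 * max |(c : ℝ)| 1 * E)) =
      (768 * (q g s (k + 1) : ℝ) * E) * max |(c : ℝ)| 1 := by ring
    rw [h2, one_mul] at h1
    have h3 : (768 * (q g s (k + 1) : ℝ) * E) * max |(c : ℝ)| 1 <
      (q g s k * X) * max |(c : ℝ)| 1 := mul_lt_mul_of_pos_right hc1 (by positivity)
    have h4 : (q g s k * X) * max |(c : ℝ)| 1 = X * (q g s k * max |(c : ℝ)| 1) := by ring
    rw [h4] at h3
    nlinarith
  · rcases hcase with hcase | hcase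
    · have h1 := h.1
      nlinarith
    · have h1 := h.2.trans hD'
      rw [div_pow, one_pow, div_le_div_iff₀ (by positivity) (by positivity)] at h1
      nlinarith

/-- Rectangular box. -/
lemma window_rect (hg : ∀ m, 1 ≤ g m) {k : ℕ} {X E : ℝ} (hq24 : 24 ≤ q g s k)
    (hX : ∀ j, jump g s j → (q g s j : ℝ) ≤ X → j ≤ k) (hE1 : 1 ≤ E)
    (hE : ∀ j, jump g s j → j < k → (q g s (j + 1) : ℝ) ≤ E)
    (hcase : 2 * (q g s k : ℝ) ^ 2 ≤ X) (hcase2 : X ≤ 12 * (q g s (k + 1) : ℝ))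
    (hc1 : 32 * (q g s (k + 1) : ℝ) < q g s k * X) (hc2 : 1152 * E ^ 2 < (q g s k : ℝ) ^ 2) :
    ∃ u v w : ℤ, ¬ Red u v w ∧ |(u : ℝ)| ≤ X ∧ |(v : ℝ)| ≤ X ∧ |(w : ℝ)| ≤ X ∧
      |u * zeta g s ^ 2 + v * zeta g s + w| ≤ 8 / ((q g s k : ℝ) ^ 2 * X) := by
  have hqpos := q_pos s hg k
  have hQpos := q_pos s hg (k + 1)
  have hq24' : (24 : ℝ) ≤ q g s k := by exact_mod_cast hq24
  have hX4 : 4 ≤ X := by nlinarith
  set A : ℕ := q g s k ^ 2 with hA
  set B : ℕ := ⌊X / 2⌋₊ with hB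
  have hA1 : (A : ℝ) = (q g s k : ℝ) ^ 2 := by rw [hA]; push_cast; ring
  have hA2 : 2 ≤ A := by rw [hA]; nlinarith
  have hB2 : 2 ≤ B := Nat.le_floor (by push_cast; linarith)
  have hB1 : (B : ℝ) ≤ X / 2 := Nat.floor_le (by linarith)
  have hB3 : X / 2 < B + 1 := Nat.lt_floor_add_one _
  have hB4 : X ≤ 4 * B := by
    have : (2 : ℝ) ≤ B := by exact_mod_cast hB2
    linarith
  have hBpos : (0 : ℝ) < B := by exact_mod_cast (by omega : 0 < B)
  obtain ⟨u, v, w, huv, hu, hv, hw, hD⟩ := pigeon (zeta g s) (zeta_pos s hg).le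
    (zeta_lt_one s hg).le A B (by omega) (by omega) (by nlinarith)
  rw [hA1] at hu hw hD
  have hD' : |u * zeta g s ^ 2 + v * zeta g s + w| ≤ 8 / ((q g s k : ℝ) ^ 2 * X) := by
    refine hD.trans ?_
    rw [div_le_div_iff₀ (by positivity) (by positivity)]
    have : (0 : ℝ) < (q g s k : ℝ) ^ 2 := by positivity
    nlinarith
  refine ⟨u, v, w, ?_, by linarith, by linarith, by linarith, hD'⟩
  intro hred
  rcases red_core s hg (by linarith) hX hE1 hE huv (by linarith) (by linarith) hred with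
    h | ⟨c, d, hcd, hpc, hcX, hval⟩ | h
  · have h1 := h.trans hD'
    rw [div_le_div_iff₀ (by positivity) (by positivity)] at h1
    have h2 : 8 * (144 * X * E ^ 2) = (1152 * E ^ 2) * X := by ring
    rw [h2, one_mul] at h1
    have hX0 : 0 < X := by linarith
    nlinarith [mul_lt_mul_of_pos_right hc2 hX0]
  · have hc0 : (1 : ℝ) ≤ max |(c : ℝ)| 1 := le_max_right _ _
    have hcm : |(c : ℝ)| ≤ max |(c : ℝ)| 1 := le_max_left _ _
    have h2c : 2 * |(c : ℝ)| ≤ q g s (k + 1) := by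
      have h1 : (q g s k : ℝ) * |(c : ℝ)| ≤ 12 * (q g s (k + 1) : ℝ) := by nlinarith
      have h2 : 24 * |(c : ℝ)| ≤ q g s k * |(c : ℝ)| :=
        mul_le_mul_of_nonneg_right hq24' (abs_nonneg _)
      linarith
    have hl := nonprop_half s hg k c d hpc h2c
    have h1 := (mul_le_mul_of_nonneg_left hl
      (by positivity : (0 : ℝ) ≤ 1 / (2 * (q g s (k + 1) : ℝ)))).trans (hval.trans hD')
    rw [div_mul_div_comm, one_mul, div_le_div_iff₀ (by positivity) (by positivity)] at h1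
    have h3 : 8 * (2 * (q g s (k + 1) : ℝ) * (2 * (q g s k : ℝ))) =
      (32 * (q g s (k + 1) : ℝ)) * q g s k := by ring
    rw [h3, one_mul] at h1
    have h4 := mul_lt_mul_of_pos_right hc1 hqpos
    nlinarith
  · have h1 := h.1
    linarith

end Pool.Agent.Lib.Helper15.Quad
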